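import Mathlib

/-!
# Project ST (MP_160b6c_nt): torsion over towers of solvable extensions; statements of three packages

All three are self-contained (Mathlib only).
-/

set_option autoImplicit false

namespace Pool.Agent.P8H12.ST

/-- the iterated commutator subgroups of a subgroup -/
def der {G : Type*} [Group G] (S : Subgroup G) : ℕ → Subgroup G
  | 0 => S
  | s + 1 => ⁅der S s, der S s⁆

/-- the upper unipotent matrix with entry `x` -/
def up {R : Type} [CommRing R] (x : R) : Matrix.SpecialLinearGroup (Fin 2) R :=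
  ⟨!![1, x; 0, 1], by simp [Matrix.det_fin_two]⟩

/-- the lower unipotent matrix with entry `x` -/
def lo {R : Type} [CommRing R] (x : R) : Matrix.SpecialLinearGroup (Fin 2) R :=
  ⟨!![1, 0; x, 1], by simp [Matrix.det_fin_two]⟩

/-- `mm d 0 = lcm (1, …, max (d, 3))` and `mm d (s + 1) = 2 (mm d s) ^ 3` -/
def mm (d : ℕ) : ℕ → ℕ
  | 0 => (Finset.Icc 1 (max d 3)).lcm id
  | s + 1 => 2 * mm d s ^ 3

/-- the product of the largest powers `≤ 2 g` of the primes `p ≤ g + 1` -/
def ee (g : ℕ) : ℕ := ∏ p ∈ (Finset.range (g + 2)).filter Nat.Prime, p ^ Nat.log p (2 * g)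

/-- Package UNI. Let `S` be a subgroup of `SL_2(Z / l ^ a)`, `l` prime, such that every matrix has a power
`M ^ r`, `1 ≤ r ≤ d`, in `S`. Then the `s`-th iterated commutator subgroup of `S` contains all
`up (mm d s * x)` and `lo (mm d s * x)`, and for `l > max (d, 3)` all `up x` and `lo x`.
Proof. `s = 0`: if `up y ^ r = up (r y) ∈ S` and `r ∣ mm d 0` take a power. If `l > d` then `r` is a unit:
the powers of `up (r)` are all `up (r y)`, i.e. all `up x`.
Step for `l ≤ max (d, 3)`: then `l ∣ m := mm d s`, and `t = 1 + m ^ 2` is a unit with inverse `t'`. The matrix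
`diag (t, t') = lo (- m t') * up m * lo m * up (- m t')` (check by multiplication) is in `der S s`, and so the
commutator of it with `up (m y)` is in `der S (s + 1)`: it is `up (m y (t ^ 2 - 1)) = up (m ^ 3 (m ^ 2 + 2) y)`.
For odd `l`, `m ^ 2 + 2` is a unit; for `l = 2`, `m ^ 2 + 2 = 2 w` with `w` odd; in both cases a suitable `y`
gives `up (2 m ^ 3 x)`. The same for `lo` (with the inverse of the diagonal matrix).
Step for `l > max (d, 3)`: `2` and `3` are units; `diag (2, 1/2)` is a product of `up`s and `lo`s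
(`diag (1 + a b, …) = lo (- b t') * up a * lo b * up (- a t')`, `a = b = 1`), and its commutator with `up y` is
`up (3 y)`. -/
def S_UNI : Prop :=
  ∀ (l a d s : ℕ), l.Prime → 1 ≤ d →
    ∀ S : Subgroup (Matrix.SpecialLinearGroup (Fin 2) (ZMod (l ^ a))),
      (∀ M : Matrix.SpecialLinearGroup (Fin 2) (ZMod (l ^ a)), ∃ r : ℕ, 1 ≤ r ∧ r ≤ d ∧ M ^ r ∈ S) →
      (∀ x : ZMod (l ^ a), up ((mm d s : ZMod (l ^ a)) * x) ∈ der S s ∧
        lo ((mm d s : ZMod (l ^ a)) * x) ∈ der S s) ∧
      (max d 3 < l → ∀ x : ZMod (l ^ a), up x ∈ der S s ∧ lo x ∈ der S s)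

/-- Package FIN. An integral matrix `M` of size `n ≤ g` of finite order satisfies `M ^ ee g = 1`.
Proof. Let `o` be its order and `p ^ b` (`b ≥ 1`) a prime power which divides `o` exactly. `N = M ^ (o / p ^ b)` has
order `p ^ b`. Over the rationals the minimal polynomial of `N` divides
`X ^ (p ^ b) - 1 = (X ^ (p ^ (b - 1)) - 1) * cyclotomic (p ^ b)`, but it does not divide the first factor; the
cyclotomic polynomial is irreducible over `ℚ`, so it divides the minimal polynomial, and
`p ^ (b - 1) (p - 1) = φ (p ^ b) ≤ n ≤ g`. Hence `p ≤ g + 1` and `p ^ b ≤ 2 g`, so `p ^ b ∣ ee g`. -/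
def S_FIN : Prop :=
  ∀ (g n : ℕ), n ≤ g → ∀ (M : Matrix (Fin n) (Fin n) ℤ) (t : ℕ), 0 < t → M ^ t = 1 → M ^ ee g = 1

/-- `K` is contained in a Galois extension `L` of an extension `F` of degree at most `d` of `k`, and the
`s`-th derived group of the Galois group of `L` over `F` is trivial -/
def Tower (k K : Type) [Field k] [Field K] [Algebra k K] (d s : ℕ) : Prop :=
  ∃ (F L : Type) (_ : Field F) (_ : Field L) (_ : Algebra k F) (_ : Algebra F L) (_ : Algebra k L)
    (_ : Algebra K L) (_ : IsScalarTower k F L) (_ : IsScalarTower k K L),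
    FiniteDimensional k F ∧ Module.finrank k F ≤ d ∧ IsGalois F L ∧
      derivedSeries (L ≃ₐ[F] L) s = ⊥

/-- Package RED. Let `j` embed such a `K` into the algebraic closure. There is a subgroup `H` of the Galois
group of `k` such that every `σ` has a power `σ ^ r`, `1 ≤ r ≤ d`, in `H`, and such that the `s`-th iterated
commutator subgroup of `H` fixes `K`.
Proof. `L` is algebraic over `k`, so `j` extends to `λ : L → AlgebraicClosure k`
(`IsAlgClosed.surjective_restrictDomain_of_isAlgebraic` or similar). Let `H` be the subgroup of the `σ` which fix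
`λ (F)`. Powers: among the `d + 1` embeddings `σ ^ i ∘ λ` (`0 ≤ i ≤ d`) of `F` two are equal, as there are at most
`[F : k]` embeddings. Elements of `H` map `λ (L)` to itself since `L` is normal over `F`
(`AlgEquiv.restrictNormalHom`), which gives a homomorphism `H → (L ≃ₐ[F] L)`; it maps `der H s` into the derived
series (`Subgroup.map_commutator`), i.e. to `1`, and `j (K) ⊆ λ (L)`. -/
def S_RED : Prop :=
  ∀ (k K : Type) [Field k] [CharZero k] [Field K] [Algebra k K] (d s : ℕ), Tower k K d s →
    ∀ j : K →ₐ[k] AlgebraicClosure k,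
      ∃ H : Subgroup (AlgebraicClosure k ≃ₐ[k] AlgebraicClosure k),
        (∀ σ : AlgebraicClosure k ≃ₐ[k] AlgebraicClosure k, ∃ r : ℕ, 1 ≤ r ∧ r ≤ d ∧ σ ^ r ∈ H) ∧ ∀ τ ∈ der H s, ∀ x : K, τ (j x) = j x

end Pool.Agent.P8H12.ST
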