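import Mathlib

/-!
# Project DV (MP_160b6c_nt): torsion orders and the degree of the field; statements of three packages

All three are self-contained (Mathlib only).

The theorem: for almost all invariants `j` of a number field `k` and every finite extension `K` of `k`: let `A` be an
abelian variety over `K` which is isogenous over the algebraic closure to the product of the `E_i ^ (n i)` (`E_i`
with invariants in the set, not isogenous), and let `e` be the order of the image of the Galois group on the
lattices `Hom(E_i, A)`, so `e` divides `∏ |GL (n i, F_q)|` for all odd primes `q` (packages MIN, IDX). Then every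
torsion order in `A(K)` divides a product of `2 g` numbers `m` such that `l ^ (a - 1) * (l + 1)` divides
`[K : k] e` for all prime powers `l ^ a ∣ m` (package ORB). So for the primes `l` which divide a torsion order
`l + 1` divides `[K : k] e`, and the torsion is bounded by a polynomial in `[K : k]`.
-/

set_option autoImplicit false

namespace Pool.Agent.P8H12.ST

/-- Package MIN (Minkowski): an integral matrix of finite order which is congruent to `1` modulo an odd prime is `1`.
Proof. Otherwise a power `N` of `M` has prime order `p`, and `N = 1 + q ^ r B`, `r ≥ 1`, with `B` not divisible by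
`q` (all powers of `M` are `1` modulo `q`). Expand `N ^ p = 1`: `p q ^ r B + (p choose 2) q ^ (2 r) B ^ 2 + … + q ^ (p r) B ^ p = 0`.
If `p ≠ q`, then modulo `q ^ (r + 1)` we get `q ∣ p B`. If `p = q ≥ 3`, then modulo `q ^ (r + 2)` we get
`q ^ (r + 1) B = 0`, since `q ∣ (q choose 2)`, `2 r + 1 ≥ r + 2` and `3 r ≥ r + 2`. (One may argue with
single prime powers otherwise, as long as the statement is proved.) -/
def S_MIN : Prop :=
  ∀ (q n : ℕ), q.Prime → q ≠ 2 → ∀ (M : Matrix (Fin n) (Fin n) ℤ) (t : ℕ), 0 < t → M ^ t = 1 →
    (∃ B : Matrix (Fin n) (Fin n) ℤ, M = 1 + (q : ℤ) • B) → M = 1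

/-- Package IDX. The image of a group in a product of groups `GL (n i, ℤ)`, all elements of which have finite order,
is finite and its order divides the product of the orders of the `GL (n i, F_q)`.
Proof (from `S_MIN`: `theorem idx (h : S_MIN) : S_IDX`). By `S_MIN` the kernel of the reduction
`G → ∏ GL (n i, ZMod q)` (`Matrix.GeneralLinearGroup.map (Int.castRingHom (ZMod q))`) is the same subgroup
`⨅ ker (ρ i)`. So the index is the order of a subgroup of `∏ GL (n i, ZMod q)` (`Subgroup.index_ker`,
`Subgroup.card_subgroup_dvd_card`), and `Matrix.card_GL_field`. -/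
def S_IDX : Prop :=
  ∀ (q r : ℕ) (n : Fin r → ℕ), q.Prime → q ≠ 2 → ∀ (G : Type) [Group G]
    (ρ : ∀ i, G →* Matrix.GeneralLinearGroup (Fin (n i)) ℤ),
    (∀ i σ, ∃ t : ℕ, 0 < t ∧ ρ i σ ^ t = 1) →
    (⨅ i, (ρ i).ker).index ≠ 0 ∧
      (⨅ i, (ρ i).ker).index ∣ ∏ i, ∏ a ∈ Finset.range (n i), (q ^ n i - q ^ a)

/-- Package ORB. A group `G` acts on `V`, the points killed by `l ^ a` have the basis `P`, `Q`, and the image of `G`
contains all automorphisms of determinant `1` of them. Let `y` have the order `l ^ a` and let `H` be a subgroup. If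
`H` maps the group generated by `y` to itself, then `l ^ (a - 1) (l + 1)` divides the index of `H`, and if `H` fixes
`y` up to sign, then `l ^ (2 a - 2) (l ^ 2 - 1)` divides twice the index of `H`.
Proof. Let `S` be the stabiliser of `y`. Its index is the number of elements of the orbit of `y`
(`MulAction.index_stabilizer`, with the action of `G` on `V` given by `act`), and the orbit is the set of all
elements of order `l ^ a` (an element `x P + z Q` has this order iff `l` does not divide both `x` and `z`, and then
it is the image of `P` under a matrix with first column `(x, z)` and determinant `1` modulo `l ^ a`; `y` itself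
is also of this form). There are `l ^ (2 a) - l ^ (2 (a - 1)) = l ^ (2 (a - 1)) (l ^ 2 - 1)` of them.
For `τ ∈ H` let `act τ y = m y` and `χ τ = (m : ZMod (l ^ a))`; this is a homomorphism of `H` to the units
(`MonoidHom.toHomUnits`), with kernel `H ⊓ S`. So the relative index of `S` in `H` is the order of the image of
`χ`, and divides `φ (l ^ a) = l ^ (a - 1) (l - 1)`, respectively `2` if all values of `χ` are `±1`. Finally the index
of `S` divides the index of `H ⊓ S`, which is the index of `H` times the order of the image of `χ`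
(`Subgroup.relIndex_mul_index`, `Subgroup.index_dvd_of_le`). Cancel `l ^ (a - 1) (l - 1)`. -/
def S_ORB : Prop :=
  ∀ (G V : Type) [Group G] [AddCommGroup V] (act : G → V →+ V),
    (∀ (σ τ : G) (v : V), act (σ * τ) v = act σ (act τ v)) → (∀ v : V, act 1 v = v) →
    ∀ (l a : ℕ), l.Prime → 1 ≤ a → ∀ P Q : V,
      ((l ^ a : ℕ) : ℤ) • P = 0 → ((l ^ a : ℕ) : ℤ) • Q = 0 →
      (∀ R : V, ((l ^ a : ℕ) : ℤ) • R = 0 → ∃ x y : ℤ, R = x • P + y • Q) →
      (∀ x y : ℤ, x • P + y • Q = 0 → ((l ^ a : ℕ) : ℤ) ∣ x ∧ ((l ^ a : ℕ) : ℤ) ∣ y) →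
      (∀ p b c d : ℤ, ((l ^ a : ℕ) : ℤ) ∣ p * d - b * c - 1 →
        ∃ σ : G, act σ P = p • P + c • Q ∧ act σ Q = b • P + d • Q) →
      ∀ (H : Subgroup G) (y : V), addOrderOf y = l ^ a →
        ((∀ τ ∈ H, act τ y ∈ AddSubgroup.zmultiples y) → l ^ (a - 1) * (l + 1) ∣ H.index) ∧
        ((∀ τ ∈ H, act τ y = y ∨ act τ y = - y) →
          l ^ (2 * (a - 1)) * (l ^ 2 - 1) ∣ 2 * H.index)

end Pool.Agent.P8H12.ST
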