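import Mathlib

/-!
# Project PF (MP_160b6c_nt): torsion over extensions without projective factors; statements of three packages

All three are self-contained (Mathlib only).

The theorem: for almost all invariants `j` of a number field `k`: let `F` be an extension of `k` of degree at most `d`,
and let `L` be a Galois extension of `F` (of any degree) such that the simple groups `PSL₂(F_l)`, `l > max (d, 3)`,
do not occur as Galois groups of finite extensions `k₁ ⊆ k₂` of `F` in `L` with `k₁` Galois over `F`. Then for all `K` in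
`L` and all abelian varieties of dimension `g` over `K` which are geometrically isogenous to products of elliptic
curves with these invariants, the number of torsion points over `K` of order prime to all primes `≤ max (d, 3)`
is at most `lcm (1, …, 2 g) ^ (4 g ²)`, which depends only on `g`.
-/

set_option autoImplicit false

namespace Pool.Agent.P8H12.ST

/-- Package NRM: normal subgroups of `SL₂(ℤ/l^a)`, `l ≥ 5`.
Proof. `π` is the reduction modulo `l` (`Matrix.SpecialLinearGroup.map (ZMod.castHom ..)`, surjective, since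
`SL₂(F_l)` is generated by the transvections / by lifting) followed by the quotient map. `π (N)` is normal in
`PSL₂(F_l)`, which is simple (`Matrix.ProjectiveSpecialLinearGroup.rank_two_simple`). If it is trivial we are done.
Otherwise it is everything; then `SL₂(ℤ/l^a) = N * ker π`, so `SL₂(ℤ/l^a) / N` is a quotient of `ker π`, which is
solvable: the matrices `≡ 1` modulo `l` form an `l`-group (order a power of `l`), and its quotient in `ker π` has
at most two elements (the centre of `SL₂(F_l)`). But `SL₂(ℤ/l^a)` is perfect: it is generated by the unipotent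
matrices `up x`, `lo x` (local ring), and `up (3 y)` is the commutator of `diag (2, 1/2)` and `up y`, with `3` a unit.
A perfect solvable group is trivial, so `N = ⊤`. (Another proof: from `π (N) = ⊤` get a unipotent in `N`.) -/
def S_NRM : Prop := ∀ (l a : ℕ), l.Prime → 5 ≤ l → 1 ≤ a →
  ∃ π : Matrix.SpecialLinearGroup (Fin 2) (ZMod (l ^ a)) →*
      Matrix.ProjectiveSpecialLinearGroup (Fin 2) (ZMod l),
    Function.Surjective π ∧
    ∀ N : Subgroup (Matrix.SpecialLinearGroup (Fin 2) (ZMod (l ^ a))), N.Normal → N ≠ ⊤ → N ≤ π.ker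

/-- Package GPW: a subgroup of `SL₂(ℤ/l^a)`, `l > max (d, 3)`, which contains a power `M ^ r`, `1 ≤ r ≤ d`, of every
matrix is the whole group. Proof. `up 1 ^ r = up r` with `r` a unit modulo `l ^ a`, and its powers are all `up x`; in
the same way all `lo x`; these matrices generate `SL₂` of the local ring `ℤ/l^a` (if `c` is a unit then
`(p b; c e) = up ((p - 1) / c) * lo c * up ((e - 1) / c)`; otherwise `e` is a unit, multiply by `lo 1`
or so to reach the first case). -/
def S_GPW : Prop := ∀ (l a d : ℕ), l.Prime → max d 3 < l → 1 ≤ a →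
  ∀ S : Subgroup (Matrix.SpecialLinearGroup (Fin 2) (ZMod (l ^ a))),
    (∀ M : Matrix.SpecialLinearGroup (Fin 2) (ZMod (l ^ a)), ∃ r : ℕ, 1 ≤ r ∧ r ≤ d ∧ M ^ r ∈ S) →
    S = ⊤

/-- Package CORE (`theorem core (hN : S_NRM) (hG : S_GPW) : S_CORE`). A group `G` acts on `V`; the points killed by
`l ^ a` have the basis `P`, `Q`, and the image of `G` contains `SL₂(ℤ/l^a)`; `HL` is a normal subgroup of `HF`, and every
element of `G` has a power with exponent `≤ d` in `HF`. Then either the image of `HL` contains `SL₂(ℤ/l^a)`, or `HF`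
has a normal subgroup `A ≥ HL` with a surjective homomorphism `f` to `PSL₂(F_l)`, which is trivial on `HL` and on the
elements of `HF` which fix `P` and `Q`.
Proof. Every `τ` acts on `P`, `Q` by a matrix `R τ` over `ZMod (l ^ a)` (see `Pool/Agent/P8H12/ST/Rep.lean` for such
a homomorphism-like relation, or define the homomorphism `R : G →* Matrix.GeneralLinearGroup (Fin 2) (ZMod (l ^ a))`);
let `Im H` be the subgroup of the `M ∈ SL₂` which are `R τ`, `τ ∈ H`. `Im HF = ⊤` by GPW, since for `M = R σ` the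
power `σ ^ r ∈ HF` has the matrix `M ^ r`. `Im HL` is normal, as `HF` normalises `HL`. If `Im HL = ⊤` we are in the
first case. Otherwise `Im HL ≤ ker π` by NRM. Let `A₀` be the group of the `τ ∈ HF` with `R τ ∈ SL₂` (normal in `HF`,
the kernel of the determinant), and `A = A₀ * HL` (`A₀ ⊔ HL`). Put `f (α * σ) = π (R α)` for `α ∈ A₀`, `σ ∈ HL`. This is
well defined, since `R` maps `A₀ ∩ HL` into `Im HL ≤ ker π`, and a homomorphism:
`α σ α' σ' = (α α') (α'⁻¹ σ α' σ')`. It is surjective as `Im HF = ⊤` and `π` is surjective. -/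
def S_CORE : Prop :=
  ∀ (G V : Type) [Group G] [AddCommGroup V] (act : G → V →+ V),
    (∀ (σ τ : G) (v : V), act (σ * τ) v = act σ (act τ v)) → (∀ v : V, act 1 v = v) →
    ∀ (l a d : ℕ), l.Prime → max d 3 < l → 1 ≤ a → ∀ P Q : V,
      ((l ^ a : ℕ) : ℤ) • P = 0 → ((l ^ a : ℕ) : ℤ) • Q = 0 →
      (∀ R : V, ((l ^ a : ℕ) : ℤ) • R = 0 → ∃ x y : ℤ, R = x • P + y • Q) →
      (∀ x y : ℤ, x • P + y • Q = 0 → ((l ^ a : ℕ) : ℤ) ∣ x ∧ ((l ^ a : ℕ) : ℤ) ∣ y) →
      (∀ p b c e : ℤ, ((l ^ a : ℕ) : ℤ) ∣ p * e - b * c - 1 →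
        ∃ σ : G, act σ P = p • P + c • Q ∧ act σ Q = b • P + e • Q) →
      ∀ HF HL : Subgroup G, HL ≤ HF → (∀ τ ∈ HF, ∀ σ ∈ HL, τ * σ * τ⁻¹ ∈ HL) →
        (∀ σ : G, ∃ r : ℕ, 1 ≤ r ∧ r ≤ d ∧ σ ^ r ∈ HF) →
        (∀ p b c e : ℤ, ((l ^ a : ℕ) : ℤ) ∣ p * e - b * c - 1 →
          ∃ τ ∈ HL, act τ P = p • P + c • Q ∧ act τ Q = b • P + e • Q) ∨
        ∃ (A : Subgroup G) (f : A →* Matrix.ProjectiveSpecialLinearGroup (Fin 2) (ZMod l)),
          HL ≤ A ∧ A ≤ HF ∧ (∀ τ ∈ HF, ∀ σ ∈ A, τ * σ * τ⁻¹ ∈ A) ∧ Function.Surjective f ∧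
          (∀ τ : A, (τ : G) ∈ HL → f τ = 1) ∧
          ∀ τ ∈ HF, act τ P = P → act τ Q = Q → ∃ h : τ ∈ A, f ⟨τ, h⟩ = 1

end Pool.Agent.P8H12.ST
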